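import Pool.Agent.LE.StmtsQZ
import Pool.Agent.Helper68_LQF.MBR

/-!
# Row IMM of squad LQZ: the self-energy at `2 w`
-/

set_option autoImplicit false

open MeasureTheory ProbabilityTheory Function Filter

open scoped ENNReal BigOperators Topology NNReal ComplexOrder Matrix

noncomputable section

namespace Pool.Agent.LE.QZ.H69

open Pool.Agent.Anderson hiding box mem_box card_box
open Pool.Agent.Loc Pool.Agent.Mob Pool.Agent.Helper54.Bal
  Pool.Agent.Helper96.EXP Pool.Agent.BED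
open Pool.Agent.LE.MN Pool.Agent.LE.CL Pool.Agent.LE.IR Pool.Agent.LE.QD Pool.Agent.LE.QF

theorem imm_deriv {d M : ℕ} [NeZero M] (ral : RalStmt) {E t : ℝ} (ht : 0 < t) :
    HasDerivAt (fun s : ℝ => Pool.Agent.LE.QF.H68.Fz d M ⟨E, s⟩)
      (Complex.I * bh (⟨E, t⟩ : ℂ) (0 : Tor d M)) t := by
  have h0 : ∀ p : Tor d M, HasDerivAt (fun s : ℝ => ((es p : ℂ) - (⟨E, s⟩ : ℂ))⁻¹)
      (Complex.I * (((es p : ℂ) - (⟨E, t⟩ : ℂ))⁻¹ * ((es p : ℂ) - (⟨E, t⟩ : ℂ))⁻¹)) t := by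
    intro p
    have e1 : ∀ s : ℝ, (⟨E, s⟩ : ℂ) = (E : ℂ) + (s : ℂ) * Complex.I := fun s => by
      apply Complex.ext <;> simp
    have h1 : HasDerivAt (fun s : ℝ => (es p : ℂ) - (⟨E, s⟩ : ℂ)) (-Complex.I) t := by
      have h2 : HasDerivAt (fun s : ℝ => (E : ℂ) + (s : ℂ) * Complex.I) Complex.I t := by
        have h3 := ((Complex.ofRealCLM.hasDerivAt (x := t)).mul_const Complex.I).const_add (E : ℂ)
        simpa using h3
      have h4 := h2.const_sub (es p : ℂ)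
      refine h4.congr_of_eventuallyEq (Filter.Eventually.of_forall fun s => ?_)
      show (es p : ℂ) - (⟨E, s⟩ : ℂ) = (es p : ℂ) - ((E : ℂ) + (s : ℂ) * Complex.I)
      rw [e1 s]
    have hne : (es p : ℂ) - (⟨E, t⟩ : ℂ) ≠ 0 := by
      intro h
      have := congrArg Complex.im h
      simp at this
      exact ht.ne' this
    have h5 := h1.fun_inv hne
    have e2 : -(-Complex.I) / ((es p : ℂ) - (⟨E, t⟩ : ℂ)) ^ 2 =
        Complex.I * (((es p : ℂ) - (⟨E, t⟩ : ℂ))⁻¹ * ((es p : ℂ) - (⟨E, t⟩ : ℂ))⁻¹) := by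
      rw [neg_neg, div_eq_mul_inv, sq, mul_inv]
    rw [e2] at h5
    exact h5
  have h1 : HasDerivAt (fun s : ℝ => (∑ p : Tor d M, ((es p : ℂ) - (⟨E, s⟩ : ℂ))⁻¹) / (M : ℂ) ^ d)
      ((∑ p : Tor d M, Complex.I * (((es p : ℂ) - (⟨E, t⟩ : ℂ))⁻¹ *
        ((es p : ℂ) - (⟨E, t⟩ : ℂ))⁻¹)) / (M : ℂ) ^ d) t :=
    (HasDerivAt.fun_sum fun p _ => h0 p).div_const _
  have e3 : (∑ p : Tor d M, Complex.I * (((es p : ℂ) - (⟨E, t⟩ : ℂ))⁻¹ *
        ((es p : ℂ) - (⟨E, t⟩ : ℂ))⁻¹)) / (M : ℂ) ^ d =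
      Complex.I * bh (⟨E, t⟩ : ℂ) (0 : Tor d M) := by
    unfold bh
    rw [← Finset.mul_sum, mul_div_assoc]
    congr 2
    refine Finset.sum_congr rfl fun k _ => ?_
    rw [zero_sub, Pool.Agent.LE.QF.H68.es_neg]
  rw [e3] at h1
  exact h1

theorem imm (khb : KhbStmt) (ral : RalStmt) : ImmStmt := by
  intro d hd
  obtain ⟨C, hC, h⟩ := khb d hd
  refine ⟨C, hC, ?_⟩
  intro M _ z hz0 hz1 hM
  obtain ⟨E, hE⟩ : ∃ E, E = z.re := ⟨_, rfl⟩
  obtain ⟨w, hw⟩ : ∃ w, w = z.im := ⟨_, rfl⟩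
  have hzz : z = ⟨E, w⟩ := by rw [hE, hw]
  rw [← hw] at hz0 hz1 hM ⊢
  rw [← hE]
  rw [Pool.Agent.LE.QF.H68.rs_diag ral ⟨E, 2 * w⟩ (by show 0 < 2 * w; linarith) 0,
    Pool.Agent.LE.QF.H68.rs_diag ral z (by rw [← hw]; exact hz0) 0, hzz]
  have hlog : 0 ≤ Real.log (1 / w) := Real.log_nonneg (by
    rw [le_div_iff₀ hz0]
    linarith)
  have hsw : 0 < Real.sqrt w := Real.sqrt_pos.2 hz0
  have hb : ∀ t ∈ Set.Icc w (2 * w), ‖Complex.I * bh (⟨E, t⟩ : ℂ) (0 : Tor d M)‖ ≤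
      C * (1 + Real.log (1 / w)) / Real.sqrt w := by
    intro t ht
    have ht0 : 0 < t := lt_of_lt_of_le hz0 ht.1
    have i0 : Fin d := ⟨0, by omega⟩
    have h1 := (h M ⟨E, t⟩ (0 : Tor d M) i0 ht0 (by show t ≤ 1 / 2; linarith [ht.2]) (by
      refine le_trans ?_ hM
      show C / t ^ 2 ≤ C / w ^ 2
      exact div_le_div_of_nonneg_left (by linarith) (by positivity)
        (pow_le_pow_left₀ hz0.le ht.1 2))).2
    rw [norm_mul, Complex.norm_I, one_mul]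
    refine h1.trans ?_
    have e1 : Real.cos (Real.pi * ((((0 : Tor d M) i0).valMinAbs : ℤ) : ℝ) / M) = 1 := by
      have : ((0 : Tor d M) i0) = (0 : ZMod M) := rfl
      rw [this, ZMod.valMinAbs_zero]
      simp
    rw [e1, abs_one]
    show C * (1 + Real.log (1 / t)) / t * Real.sqrt (t / (t + 1)) ≤ _
    have e2 : Real.sqrt (t / (t + 1)) ≤ Real.sqrt t := by
      apply Real.sqrt_le_sqrt
      rw [div_le_iff₀ (by positivity)]
      nlinarith
    have e3 : Real.log (1 / t) ≤ Real.log (1 / w) :=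
      Real.log_le_log (by positivity) (one_div_le_one_div_of_le hz0 ht.1)
    have e4 : 0 ≤ 1 + Real.log (1 / t) := by
      have : 0 ≤ Real.log (1 / t) := Real.log_nonneg (by
        rw [le_div_iff₀ ht0]
        linarith [ht.2])
      linarith
    have hst : 0 < Real.sqrt t := Real.sqrt_pos.2 ht0
    calc C * (1 + Real.log (1 / t)) / t * Real.sqrt (t / (t + 1))
        ≤ C * (1 + Real.log (1 / t)) / t * Real.sqrt t :=
          mul_le_mul_of_nonneg_left e2 (by positivity)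
      _ = C * (1 + Real.log (1 / t)) / Real.sqrt t := by
          rw [div_mul_eq_mul_div, div_eq_div_iff ht0.ne' hst.ne', mul_assoc,
            Real.mul_self_sqrt ht0.le]
      _ ≤ C * (1 + Real.log (1 / w)) / Real.sqrt w := by
          apply div_le_div₀ (by positivity) _ hsw (Real.sqrt_le_sqrt ht.1)
          exact mul_le_mul_of_nonneg_left (by linarith) (by linarith)
  have h2 := norm_image_sub_le_of_norm_deriv_le_segment'
    (f := fun s : ℝ => Pool.Agent.LE.QF.H68.Fz d M ⟨E, s⟩)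
    (f' := fun t => Complex.I * bh (⟨E, t⟩ : ℂ) (0 : Tor d M))
    (C := C * (1 + Real.log (1 / w)) / Real.sqrt w) (a := w) (b := 2 * w)
    (fun t ht => (imm_deriv ral (lt_of_lt_of_le hz0 ht.1)).hasDerivWithinAt)
    (fun t ht => hb t ⟨ht.1, ht.2.le⟩) (2 * w) ⟨by linarith, le_rfl⟩
  refine h2.trans (le_of_eq ?_)
  have e5 : 2 * w - w = Real.sqrt w * Real.sqrt w := by
    rw [Real.mul_self_sqrt hz0.le]
    ring
  rw [e5, div_mul_eq_mul_div, div_eq_iff hsw.ne']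
  ring

end Pool.Agent.LE.QZ.H69
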